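import Pool.Agent.Y485.HS.Stm

set_option autoImplicit false

/-! Project HS (helper485): transfer of an action to a bi-Lipschitz chart. -/

open MeasureTheory Set Metric Filter Topology
open scoped ENNReal NNReal

namespace Pool.Agent.Y858.HS

open Pool.Agent.Y485.HS

/-- Lebesgue measure is at most a finite multiple of the Hausdorff measure. -/
lemma vol_haus (n : ℕ) : ∃ c : ℝ≥0, ∀ s : Set (E n),
    volume s = (c : ℝ≥0∞) * Measure.hausdorffMeasure (n : ℝ) s := by
  have h := Measure.isAddLeftInvariant_eq_smul (volume : Measure (E n))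
    (Measure.hausdorffMeasure (n : ℝ))
  refine ⟨Measure.addHaarScalarFactor (volume : Measure (E n))
    (Measure.hausdorffMeasure (n : ℝ)), fun s => ?_⟩
  conv_lhs => rw [h]
  rw [Measure.smul_apply, ENNReal.smul_def, smul_eq_mul]

theorem tr : S_TR := by
  classical
  intro n hn X _ _ _ H _ _ _ _ U ψ L hψ hBU hact hSob
  obtain ⟨hUo, hVo, hbl⟩ := hψ
  -- a nonnegative constant
  obtain ⟨K, hK⟩ : ∃ K : ℝ≥0, K = Real.toNNReal L := ⟨_, rfl⟩
  have hLK : L ≤ (K : ℝ) := by rw [hK]; exact Real.le_coe_toNNReal L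
  have hlip : LipschitzOnWith K ψ U := by
    refine LipschitzOnWith.of_dist_le_mul fun a ha b hb => ?_
    exact ((hbl a ha b hb).1).trans (mul_le_mul_of_nonneg_right hLK dist_nonneg)
  have h0 : (0 : E n) ∈ BB n := by
    unfold BB
    exact mem_closedBall_self (by norm_num)
  obtain ⟨x0, hx0U, hx0⟩ := hBU h0
  have : Nonempty X := ⟨x0⟩
  obtain ⟨θ, hθd⟩ : ∃ θ : E n → X, θ = Function.invFunOn ψ U := ⟨_, rfl⟩
  have hθU : ∀ y ∈ BB n, θ y ∈ U := by
    intro y hy
    obtain ⟨x, hx, hxy⟩ := hBU hy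
    rw [hθd]
    exact Function.invFunOn_mem ⟨x, hx, hxy⟩
  have hψθ : ∀ y ∈ BB n, ψ (θ y) = y := by
    intro y hy
    obtain ⟨x, hx, hxy⟩ := hBU hy
    rw [hθd]
    exact Function.invFunOn_eq ⟨x, hx, hxy⟩
  have hθψ : ∀ x ∈ U, θ (ψ x) = x := by
    intro x hx
    have h1 : θ (ψ x) ∈ U := by
      rw [hθd]; exact Function.invFunOn_mem ⟨x, hx, rfl⟩
    have h2 : ψ (θ (ψ x)) = ψ x := by
      rw [hθd]; exact Function.invFunOn_eq ⟨x, hx, rfl⟩
    have h3 := (hbl _ h1 x hx).2
    rw [h2, dist_self, mul_zero] at h3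
    exact dist_le_zero.1 h3
  have hθlip : LipschitzOnWith K θ (BB n) := by
    refine LipschitzOnWith.of_dist_le_mul fun a ha b hb => ?_
    have h3 := (hbl _ (hθU a ha) _ (hθU b hb)).2
    rw [hψθ a ha, hψθ b hb] at h3
    exact h3.trans (mul_le_mul_of_nonneg_right hLK dist_nonneg)
  have hθc : ContinuousOn θ (BB n) := hθlip.continuousOn
  have hact' : ∀ h : H, ∀ y ∈ BB n, h • θ y ∈ U ∧ dist (ψ (h • θ y)) y ≤ 1 / 4 := by
    intro h y hy
    have := hact h (θ y) (hθU y hy) (by rw [hψθ y hy]; exact hy)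
    rwa [hψθ y hy] at this
  refine ⟨fun h y => ψ (h • θ y), ⟨?_, ?_, ?_, ?_⟩, ?_, ?_⟩
  · -- continuity
    have h1 : ContinuousOn (fun q : H × E n => q.1 • θ q.2) (univ ×ˢ BB n) := by
      refine ContinuousOn.smul continuousOn_fst ?_
      exact hθc.comp continuousOn_snd fun q hq => hq.2
    exact hlip.continuousOn.comp h1 fun q hq => (hact' q.1 q.2 hq.2).1
  · intro x hx
    simp only [one_smul]
    exact hψθ x hx
  · intro h k x hx hk
    rw [hθψ _ (hact' k x hx).1, mul_smul]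
  · intro h x hx
    exact (hact' h x hx).2
  · intro h
    obtain ⟨C, hC⟩ : ∃ C : Set X, C = θ '' BB n := ⟨_, rfl⟩
    have hCc : IsCompact C := by
      rw [hC]
      exact (isCompact_closedBall _ _).image_of_continuousOn hθc
    have hCR : C ⊆ Reg n X := by
      rw [hC]
      rintro _ ⟨y, hy, rfl⟩
      exact ⟨U, ψ, L, hθU y hy, hUo, hVo, hbl⟩
    have hCU : C ⊆ U := by
      rw [hC]
      rintro _ ⟨y, hy, rfl⟩
      exact hθU y hy
    obtain ⟨g, hgm, hgH, hgE⟩ := hSob h C hCR hCc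
    have hBm : MeasurableSet (BB n) := isClosed_closedBall.measurableSet
    obtain ⟨θ', hθ'⟩ : ∃ θ' : E n → X, θ' = (BB n).piecewise θ (fun _ => x0) := ⟨_, rfl⟩
    have hθ'm : Measurable θ' := by
      rw [hθ']
      exact hθc.measurable_piecewise continuousOn_const hBm
    have hθ'e : ∀ y ∈ BB n, θ' y = θ y := by
      intro y hy
      rw [hθ']
      exact piecewise_eq_of_mem _ _ _ hy
    obtain ⟨g', hg'⟩ : ∃ g' : E n → ℝ≥0∞, g' = fun y => (K : ℝ≥0∞) * (K : ℝ≥0∞) * g (θ' y) :=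
      ⟨_, rfl⟩
    have hg'm : Measurable g' := by
      rw [hg']
      exact (hgm.comp hθ'm).const_mul _
    have hHaj : Haj (BB n) (fun y => ψ (h • θ y)) g' := by
      intro x hx y hy
      have h1 := hlip (hact' h x hx).1 (hact' h y hy).1
      have h2 := hgH (θ x) (hC ▸ mem_image_of_mem θ hx) (θ y) (hC ▸ mem_image_of_mem θ hy)
      have h3 := hθlip hx hy
      rw [hg']
      simp only
      rw [hθ'e x hx, hθ'e y hy]
      calc edist (ψ (h • θ x)) (ψ (h • θ y)) ≤ K * edist (h • θ x) (h • θ y) := h1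
        _ ≤ K * (edist (θ x) (θ y) * (g (θ x) + g (θ y))) := by gcongr
        _ ≤ K * ((K * edist x y) * (g (θ x) + g (θ y))) := by gcongr
        _ = edist x y * (K * K * g (θ x) + K * K * g (θ y)) := by ring
    have hEn : ∫⁻ y in BB n, g' y ^ n < ∞ := by
      obtain ⟨c, hc⟩ := vol_haus n
      have hmap : (volume.restrict (BB n)).map θ' ≤
          ((c : ℝ≥0∞) * (K : ℝ≥0∞) ^ n) • (Measure.hausdorffMeasure (n : ℝ)).restrict C := by
        refine Measure.le_iff.2 fun A hA => ?_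
        rw [Measure.map_apply hθ'm hA, Measure.restrict_apply (hθ'm hA), Measure.smul_apply,
          Measure.restrict_apply hA, smul_eq_mul]
        have hsub : θ' ⁻¹' A ∩ BB n ⊆ ψ '' (A ∩ C) := by
          rintro y ⟨hyA, hyB⟩
          refine ⟨θ y, ⟨?_, hC ▸ mem_image_of_mem θ hyB⟩, hψθ y hyB⟩
          rw [← hθ'e y hyB]
          exact hyA
        have hh := (hlip.mono (inter_subset_right.trans hCU : A ∩ C ⊆ U)).hausdorffMeasure_image_le
          (d := (n : ℝ)) (Nat.cast_nonneg n)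
        calc volume (θ' ⁻¹' A ∩ BB n) ≤ volume (ψ '' (A ∩ C)) := measure_mono hsub
          _ = c * Measure.hausdorffMeasure (n : ℝ) (ψ '' (A ∩ C)) := hc _
          _ ≤ c * ((K : ℝ≥0∞) ^ (n : ℝ) * Measure.hausdorffMeasure (n : ℝ) (A ∩ C)) := by
            gcongr
          _ = c * (K : ℝ≥0∞) ^ n * Measure.hausdorffMeasure (n : ℝ) (A ∩ C) := by
            rw [ENNReal.rpow_natCast, mul_assoc]
      have h1 : ∫⁻ y in BB n, g (θ' y) ^ n < ∞ := by
        have h2 : ∫⁻ y in BB n, g (θ' y) ^ n =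
            ∫⁻ x, g x ^ n ∂((volume.restrict (BB n)).map θ') :=
          (lintegral_map (hgm.pow_const n) hθ'm).symm
        rw [h2]
        refine lt_of_le_of_lt (lintegral_mono' hmap le_rfl) ?_
        rw [lintegral_smul_measure, smul_eq_mul]
        refine ENNReal.mul_lt_top ?_ hgE
        exact ENNReal.mul_lt_top ENNReal.coe_lt_top (ENNReal.pow_lt_top ENNReal.coe_lt_top)
      have h3 : ∫⁻ y in BB n, g' y ^ n =
          ((K : ℝ≥0∞) * (K : ℝ≥0∞)) ^ n * ∫⁻ y in BB n, g (θ' y) ^ n := by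
        rw [hg']
        have hm2 : Measurable (fun y => g (θ' y) ^ n) := (hgm.comp hθ'm).pow_const n
        rw [← lintegral_const_mul _ hm2]
        simp only [mul_pow]
      rw [h3]
      exact ENNReal.mul_lt_top (ENNReal.pow_lt_top (ENNReal.mul_lt_top ENNReal.coe_lt_top
        ENNReal.coe_lt_top)) h1
    obtain ⟨m, hm⟩ := ENNReal.exists_nat_gt hEn.ne
    exact ⟨m, g', hg'm, hHaj, hm.le⟩
  · intro h x hx _
    simp only
    rw [hθψ x hx]

end Pool.Agent.Y858.HS
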